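import Mathlib.Tactic.Monotonicity.Lemmas
import Mathlib.Data.Int.Star
import Mathlib.Algebra.Order.Ring.Star
import Mathlib.RingTheory.AlgebraicIndependent.TranscendenceBasis
import Mathlib.RingTheory.Polynomial.GaussLemma
import Mathlib.RingTheory.Valuation.LocalSubring
import Mathlib.RingTheory.SimpleRing.Principal
import Mathlib.NumberTheory.SiegelsLemma
import Mathlib.RingTheory.Henselian
import Mathlib.RingTheory.RegularLocalRing.Defs
import Mathlib.Tactic.Algebra.Basic

-- ======== part 0: formerly Pool.Agent.MP_cbf1af_ag.Liou.Sz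
section MrgPart0

/-! Sizes with respect to a generating set, and Siegel's lemma. -/

namespace Pool.Agent.MP_cbf1af_ag.Liou

open Algebra Set

/-- `u` is a sum of at most `H` terms `± g` with `g ∈ G`. -/
inductive Sz {A : Type*} [AddCommGroup A] (G : Set A) : ℕ → A → Prop
  | zero (H : ℕ) : Sz G H 0
  | add {H : ℕ} {u g : A} : Sz G H u → g ∈ G → Sz G (H + 1) (u + g)
  | sub {H : ℕ} {u g : A} : Sz G H u → g ∈ G → Sz G (H + 1) (u - g)

section

variable {A B : Type*} [AddCommGroup A] [AddCommGroup B] {G : Set A} {G' : Set B} {H H' : ℕ}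
  {u v : A}

theorem Sz.succ (h : Sz G H u) : Sz G (H + 1) u := by
  induction h with
  | zero => exact .zero _
  | add _ h ih => exact ih.add h
  | sub _ h ih => exact ih.sub h

theorem Sz.le (h : Sz G H u) (hH : H ≤ H') : Sz G H' u := by
  induction hH with
  | refl => exact h
  | step _ ih => exact ih.succ

theorem Sz.plus (h : Sz G H u) (h' : Sz G H' v) : Sz G (H + H') (u + v) := by
  induction h' with
  | zero => simpa using h.le (by omega)
  | add _ h ih => rw [← add_assoc, ← add_assoc]; exact ih.add h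
  | sub _ h ih => rw [← add_assoc, ← add_sub_assoc]; exact ih.sub h

theorem Sz.neg (h : Sz G H u) : Sz G H (-u) := by
  induction h with
  | zero => simpa using .zero _
  | add _ h ih => rw [neg_add, ← sub_eq_add_neg]; exact ih.sub h
  | sub _ h ih => rw [neg_sub, sub_eq_neg_add]; exact ih.add h

theorem Sz.one (h : u ∈ G) : Sz G 1 u := by simpa using (Sz.zero 0).add h

theorem Sz.bind (f : A →+ B) (hf : ∀ g ∈ G, Sz G' H' (f g)) (h : Sz G H u) :
    Sz G' (H * H') (f u) := by
  induction h with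
  | zero => simpa using .zero _
  | add _ h ih => rw [map_add, add_one_mul]; exact ih.plus (hf _ h)
  | sub _ h ih => rw [map_sub, add_one_mul, sub_eq_add_neg]; exact ih.plus (hf _ h).neg

theorem Sz.mono {G' : Set A} (h : Sz G H u) (hG : G ⊆ G') : Sz G' H u := by
  simpa using h.bind (AddMonoidHom.id A) fun g hg => Sz.one (hG hg)

theorem Sz.sum {ι : Type*} (s : Finset ι) {H : ι → ℕ} {u : ι → A}
    (h : ∀ i ∈ s, Sz G (H i) (u i)) : Sz G (∑ i ∈ s, H i) (∑ i ∈ s, u i) := by
  classical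
  induction s using Finset.induction_on with
  | empty => exact .zero _
  | insert i s hi ih =>
    rw [Finset.sum_insert hi, Finset.sum_insert hi]
    exact (h i (by simp)).plus (ih fun j hj => h j (by simp [hj]))

theorem Sz.zsmul (h : Sz G H u) (n : ℤ) : Sz G (n.natAbs * H) (n • u) := by
  have h1 : ∀ n : ℕ, Sz G (n * H) (n • u) := fun n => by
    simpa using Sz.sum (Finset.range n) fun _ _ => h
  obtain ⟨n, rfl | rfl⟩ := n.eq_nat_or_neg
  · simpa using h1 n
  · simpa using (h1 n).neg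

theorem Sz.coef {κ : Type*} [Fintype κ] {g : κ → A} (h : Sz (range g) H u) :
    ∃ c : κ → ℤ, (∀ k, |c k| ≤ H) ∧ ∑ k, c k • g k = u := by
  classical
  induction h with
  | zero => exact ⟨0, by simp, by simp⟩
  | add _ h ih =>
    obtain ⟨c, h1, rfl⟩ := ih
    obtain ⟨k, rfl⟩ := h
    refine ⟨c + Pi.single k 1, fun j => ?_, by simp [add_smul, Finset.sum_add_distrib, Pi.single_apply]⟩
    have := abs_le.1 (h1 j)
    rw [abs_le, Pi.add_apply, Pi.single_apply]
    split_ifs <;> omega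
  | sub _ h ih =>
    obtain ⟨c, h1, rfl⟩ := ih
    obtain ⟨k, rfl⟩ := h
    refine ⟨c - Pi.single k 1, fun j => ?_, by simp [sub_smul, Pi.single_apply]⟩
    have := abs_le.1 (h1 j)
    rw [abs_le, Pi.sub_apply, Pi.single_apply]
    split_ifs <;> omega

attribute [local instance] Matrix.seminormedAddCommGroup in
theorem siegel {α β : Type*} [Fintype α] [Fintype β] [Nonempty α] (g : α → A) (u : β → A)
    (hH : 1 ≤ H) (h : ∀ j, Sz (range g) H (u j)) (hc : 2 * Fintype.card α ≤ Fintype.card β) :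
    ∃ t : β → ℤ, t ≠ 0 ∧ ∑ j, t j • u j = 0 ∧ ∀ j, ‖t j‖ ≤ Fintype.card β * H := by
  choose c h1 h2 using fun j => (h j).coef
  have h0 : 0 < Fintype.card α := Fintype.card_pos
  obtain ⟨t, h3, h4, h5⟩ := Int.Matrix.exists_ne_zero_int_vec_norm_le
    (Matrix.of fun i j => c j i) (by omega) h0
  have h6 : (1 : ℝ) ≤ H := by exact_mod_cast hH
  have h7 : (2 : ℝ) * Fintype.card α ≤ Fintype.card β := by exact_mod_cast hc
  have h8 : (1 : ℝ) ≤ Fintype.card α := by exact_mod_cast h0
  refine ⟨t, h3, ?_, fun j => ((norm_le_pi_norm t j).trans h5).trans ?_⟩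
  · simp_rw [← h2, Finset.smul_sum, smul_smul]
    rw [Finset.sum_comm]
    refine Finset.sum_eq_zero fun i _ => ?_
    have := congrFun h4 i
    simp only [Matrix.mulVec, dotProduct, Matrix.of_apply, Pi.zero_apply] at this
    rw [← Finset.sum_smul, Finset.sum_congr rfl fun j _ => mul_comm (t j) _, this, zero_smul]
  · refine (Real.rpow_le_self_of_one_le (one_le_mul_of_one_le_of_one_le (by linarith)
      (le_max_left _ _)) ((div_le_one (by linarith)).2 (by linarith))).trans ?_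
    gcongr
    refine max_le h6 ((Matrix.norm_le_iff (by linarith)).2 fun i j => ?_)
    rw [Matrix.of_apply, Int.norm_eq_abs]
    exact_mod_cast h1 j i

end

variable {A τ κ : Type*} [CommRing A] [Fintype τ] {v : τ → A} {e : κ → A} {w w' : τ → ℕ}
  {c c' : ℕ} {u u' : A}

/-- Monomials in `v` with exponents at most `w`, times one of the `e k`. -/
def Gn (v : τ → A) (e : κ → A) (w : τ → ℕ) : Set A :=
  {g | ∃ β : τ → ℕ, β ≤ w ∧ ∃ k, g = (∏ s, v s ^ β s) * e k}

/-- Multiplication by `u` raises exponents by `w` and sizes by the factor `c`. -/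
def Act (v : τ → A) (e : κ → A) (w : τ → ℕ) (c : ℕ) (u : A) : Prop :=
  ∀ k, Sz (Gn v e w) c (u * e k)

theorem Gn_mono (h : w ≤ w') : Gn v e w ⊆ Gn v e w' := fun _ ⟨β, h1, h2⟩ => ⟨β, h1.trans h, h2⟩

theorem Gn_eq : Gn v e w = range fun p : (∀ s, Fin (w s + 1)) × κ =>
    (∏ s, v s ^ (p.1 s : ℕ)) * e p.2 :=
  Set.ext fun _ => ⟨fun ⟨β, h, k, h1⟩ => ⟨(fun s => ⟨β s, Nat.lt_succ_of_le (h s)⟩, k), h1.symm⟩,
    fun ⟨p, h⟩ => ⟨_, fun s => Nat.le_of_lt_succ (p.1 s).2, p.2, h.symm⟩⟩

theorem Act.sz (h : Act v e w c u) (h' : Sz (Gn v e w') c' u') :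
    Sz (Gn v e (w + w')) (c' * c) (u * u') := by
  refine h'.bind (AddMonoidHom.mulLeft u) ?_
  rintro _ ⟨β, h1, k, rfl⟩
  have := (h k).bind (G' := Gn v e (w + w')) (AddMonoidHom.mulLeft (∏ s, v s ^ β s)) (by
    rintro _ ⟨γ, h2, j, rfl⟩
    exact Sz.one ⟨γ + β, add_le_add h2 h1, j, by
      simp [pow_add, Finset.prod_mul_distrib]; ring⟩)
  simpa [mul_left_comm] using this

theorem Act.mul (h : Act v e w c u) (h' : Act v e w' c' u') :
    Act v e (w + w') (c * c') (u * u') := fun k => by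
  rw [mul_assoc, mul_comm c]; exact h.sz (h' k)

theorem Act.le (h : Act v e w c u) (h1 : w ≤ w') (h2 : c ≤ c') : Act v e w' c' u := fun k =>
  ((h k).mono (Gn_mono h1)).le h2

theorem Act.one : Act v e 0 1 1 := fun k => Sz.one ⟨0, le_rfl, k, by simp⟩

theorem Act.var [DecidableEq τ] (s : τ) : Act v e (Pi.single s 1) 1 (v s) := fun k =>
  Sz.one ⟨_, le_rfl, k, by simp [Pi.single_apply, pow_ite]⟩

theorem Act.pow (h : Act v e w c u) (n : ℕ) : Act v e (n • w) (c ^ n) (u ^ n) := by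
  induction n with
  | zero => simpa using Act.one
  | succ n ih => rw [succ_nsmul, pow_succ, pow_succ]; exact ih.mul h

theorem Act.prod {ι : Type*} (s : Finset ι) {w : ι → τ → ℕ} {c : ι → ℕ} {u : ι → A}
    (h : ∀ i ∈ s, Act v e (w i) (c i) (u i)) :
    Act v e (∑ i ∈ s, w i) (∏ i ∈ s, c i) (∏ i ∈ s, u i) := by
  classical
  induction s using Finset.induction_on with
  | empty => simpa using Act.one
  | insert i s hi ih =>
    rw [Finset.sum_insert hi, Finset.prod_insert hi, Finset.prod_insert hi]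
    exact (h i (by simp)).mul (ih fun j hj => h j (by simp [hj]))

theorem Act.sum {ι : Type*} (s : Finset ι) {u : ι → A} (h : ∀ i ∈ s, Act v e w c (u i)) :
    Act v e w (s.card * c) (∑ i ∈ s, u i) := fun k => by
  simpa [Finset.sum_mul] using Sz.sum s fun i hi => h i hi k

theorem Act.of_sz {G : Set A} {H : ℕ} (b : A) (h : ∀ g ∈ G, Act v e w c (b * g))
    (h' : Sz G H u) : Act v e w (H * c) (b * u) := fun k =>
  h'.bind ((AddMonoidHom.mulRight (e k)).comp (AddMonoidHom.mulLeft b)) fun g hg => h g hg k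

theorem Act.lift {τ' : Type*} [Fintype τ'] (v' : τ' → A) (h : Act v e w c u) :
    Act (Sum.elim v v') e (Sum.elim w 0) c u := fun k => (h k).mono <| by
  rintro _ ⟨β, h1, j, rfl⟩
  exact ⟨Sum.elim β 0, fun s => by cases s <;> simp [h1 _], j, by simp⟩

theorem repr [IsDomain A] {n : ℕ} (θ : Fin n → A) (v : τ → A)
    (h : ∀ i, IsAlgebraic (adjoin ℤ (range v)) (θ i)) :
    ∃ (s : Finset A) (b : A) (c : ℕ), 1 ∈ s ∧ b ≠ 0 ∧
      Act v ((↑) : s → A) (fun _ => c) c b ∧ ∀ i, Act v ((↑) : s → A) (fun _ => c) c (b * θ i) := by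
  classical
  choose r h1 h2 using fun i => (h i).exists_integral_multiple
  obtain ⟨s, hs⟩ := fg_adjoin_of_finite (R := adjoin ℤ (range v))
    (finite_range fun i => (∏ j, r j) • θ i) (by
      rintro _ ⟨i, rfl⟩
      beta_reduce
      rw [← Finset.prod_erase_mul _ _ (Finset.mem_univ i), mul_smul]
      exact (h2 i).smul _)
  let P : A → Prop := fun u => ∃ c, Sz (Gn v ((↑) : ↥(insert 1 s) → A) fun _ => c) c u
  have h3 : ∀ u u', P u → P u' → P (u + u') := fun u u' ⟨c, h⟩ ⟨c', h'⟩ =>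
    ⟨c + c', (h.mono (Gn_mono fun _ => by simp)).plus (h'.mono (Gn_mono fun _ => by simp))⟩
  have h4 : ∀ a ∈ adjoin ℤ (range v), ∀ u, P u → P (a * u) := fun a ha => by
    induction ha using adjoin_induction with
    | mem a ha =>
      obtain ⟨j, rfl⟩ := ha
      exact fun u ⟨c, h⟩ => ⟨1 + c, (((Act.var j).sz h).mono (Gn_mono fun i => by
        simp only [Pi.add_apply, Pi.single_apply]; split_ifs <;> omega)).le (by omega)⟩
    | algebraMap n =>
      exact fun u ⟨c, h⟩ => ⟨c + n.natAbs * c, by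
        simpa using ((h.zsmul n).mono (Gn_mono fun _ => by simp)).le (Nat.le_add_left _ c)⟩
    | add a a' _ _ h h' => exact fun u hu => add_mul a a' u ▸ h3 _ _ (h u hu) (h' u hu)
    | mul a a' _ _ h h' => exact fun u hu => mul_assoc a a' u ▸ h _ (h' u hu)
  have h5 : ∀ u ∈ adjoin (adjoin ℤ (range v)) (range fun i => (∏ j, r j) • θ i), P u :=
    fun u hu => by
    rw [← Subalgebra.mem_toSubmodule, ← hs] at hu
    induction hu using Submodule.span_induction with
    | mem u hu => exact ⟨1, Sz.one ⟨0, zero_le, ⟨u, by simp [show u ∈ s from hu]⟩, by simp⟩⟩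
    | zero => exact ⟨0, .zero _⟩
    | add _ _ _ _ h h' => exact h3 _ _ h h'
    | smul a u _ h => exact h4 a a.2 u h
  have h6 : ∀ k : ↥(insert 1 s),
      (k : A) ∈ adjoin (adjoin ℤ (range v)) (range fun i => (∏ j, r j) • θ i) := fun k => by
    rcases Finset.mem_insert.1 k.2 with h | h
    · rw [h]; exact one_mem _
    · rw [← Subalgebra.mem_toSubmodule, ← hs]; exact Submodule.subset_span h
  choose c hc using fun (p : Option (Fin n) × ↥(insert 1 s)) =>
    h5 (((∏ j, r j : adjoin ℤ (range v)) : A) * p.1.elim 1 θ * p.2) (mul_mem (by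
      rcases p with ⟨_ | i, _⟩
      · exact mul_mem (Subalgebra.algebraMap_mem _ (∏ j, r j)) (one_mem _)
      · exact subset_adjoin ⟨i, rfl⟩) (h6 _))
  obtain ⟨C, hC⟩ := Finite.exists_le c
  refine ⟨insert 1 s, (∏ j, r j : adjoin ℤ (range v)), C, by simp, ?_, fun k => ?_, fun i k =>
    ((hc (some i, k)).mono (Gn_mono fun _ => hC _)).le (hC _)⟩
  · exact_mod_cast Finset.prod_ne_zero_iff.2 fun j _ => h1 j
  · simpa using ((hc (none, k)).mono (Gn_mono fun _ => hC _)).le (hC _)

end Pool.Agent.MP_cbf1af_ag.Liou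

end MrgPart0

-- ======== part 1: formerly Pool.Agent.MP_cbf1af_ag.Liou.Val
section MrgPart1

/-! Generic projections are finite (by valuations), and the minimal relation. -/

namespace Pool.Agent.MP_cbf1af_ag.Liou

open Algebra Set MvPolynomial

theorem ex_sub {A ι κ : Type*} [CommRing A] [IsDomain A] [CharZero A] [Finite ι] {x : ι → A}
    {y : κ → A} (hx : AlgebraicIndependent ℤ x)
    (h : ∀ i, IsAlgebraic (adjoin ℤ (range y)) (x i)) :
    ∃ f : ι → κ, AlgebraicIndependent ℤ (y ∘ f) := by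
  obtain ⟨B, hB⟩ := (AlgebraicIndependent.matroid ℤ A).exists_isBasis (range y)
  have h1 : (AlgebraicIndependent.matroid ℤ A).Indep (range x) := hx.to_subtype_range
  have h2 := h1.encard_le_eRk_of_subset (X := (AlgebraicIndependent.matroid ℤ A).closure (range y))
    (by rw [AlgebraicIndependent.matroid_closure_eq]; rintro _ ⟨i, rfl⟩; exact h i)
  rw [Matroid.eRk_closure_eq, hB.eRk_eq_encard] at h2
  obtain ⟨f, h3, h4⟩ := (finite_range x).exists_injOn_of_encard_le h2
  have h5 : ∀ i, f (x i) ∈ B := fun i => h3 ⟨i, rfl⟩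
  choose g hg using fun i => hB.subset (h5 i)
  have h6 : AlgebraicIndependent ℤ ((↑) : B → A) := hB.indep
  refine ⟨g, ?_⟩
  rw [show y ∘ g = ((↑) : B → A) ∘ fun i => ⟨f (x i), h5 i⟩ from funext hg]
  exact h6.comp _ fun i j e => hx.injective (h4 ⟨i, rfl⟩ ⟨j, rfl⟩ (congrArg Subtype.val e))

theorem ex_basis {A : Type*} [CommRing A] [IsDomain A] [CharZero A] {n : ℕ} (θ : Fin n → A) :
    ∃ (t : ℕ) (f : Fin t → Fin n), AlgebraicIndependent ℤ (θ ∘ f) ∧
      ∀ i, IsAlgebraic (adjoin ℤ (range (θ ∘ f))) (θ i) := by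
  obtain ⟨B, hB⟩ := (AlgebraicIndependent.matroid ℤ A).exists_isBasis (range θ)
  have := ((finite_range θ).subset hB.subset).to_subtype
  obtain ⟨t, ⟨e⟩⟩ := Finite.exists_equiv_fin B
  choose g hg using fun b : B => hB.subset b.2
  have h1 : θ ∘ g ∘ e.symm = ((↑) : B → A) ∘ e.symm := funext fun i => hg _
  have h6 : AlgebraicIndependent ℤ ((↑) : B → A) := hB.indep
  refine ⟨t, g ∘ e.symm, h1 ▸ h6.comp _ e.symm.injective, fun i => ?_⟩
  rw [h1, e.symm.surjective.range_comp, Subtype.range_val]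
  exact (AlgebraicIndependent.matroid_isBasis_iff.1 hB).2.2 _ ⟨i, rfl⟩

theorem drop {A B ι : Type*} [CommRing A] [IsDomain A] [CommRing B] (φ : A →ₐ[ℤ] B) {p : A}
    (h0 : p ≠ 0) (h1 : φ p = 0) {v : ι → A} (hv : AlgebraicIndependent ℤ (φ ∘ v)) :
    AlgebraicIndependent ℤ fun o : Option ι => o.elim p v := by
  refine AlgebraicIndependent.option_iff.2 ⟨hv.of_comp φ, fun h => ?_⟩
  obtain ⟨⟨r, hr⟩, h2, c, h3⟩ := h.exists_nonzero_dvd (mem_nonZeroDivisors_of_ne_zero h0)
  rw [adjoin_range_eq_range_aeval] at hr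
  obtain ⟨a, rfl⟩ := hr
  have h4 : aeval (φ ∘ v) a = 0 := by
    have h5 : aeval v a = p * c := h3
    rw [show aeval (φ ∘ v) a = φ (aeval v a) by rw [← AlgHom.comp_apply, comp_aeval]; rfl,
      h5, map_mul, h1, zero_mul]
  exact h2 (Subtype.ext (by simp [algebraicIndependent_iff.1 hv a h4]))

variable {Ω : Type*} [Field Ω] [CharZero Ω]

theorem val_mem {I : Type*} [Fintype I] {t : ℕ} (y : I → Ω) {ex : I → ℕ}
    (hex : Function.Injective ex) (l : Fin (t + 1) → Ω) (hl : AlgebraicIndependent ℤ l)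
    (x : Option (Fin t) → Ω) (hy : ∀ i, IsAlgebraic (adjoin ℤ (range x)) (y i))
    (V : ValuationSubring Ω) (h1 : ∀ j, l j ∈ V) (h2 : ∀ j, ∑ i, l j ^ ex i * y i ∈ V)
    (h3 : ∀ a : MvPolynomial (Fin (t + 1)) ℤ, (aeval l a)⁻¹ ∈ V) (i : I) : y i ∈ V := by
  by_contra hi
  obtain ⟨k, -, hk⟩ := Finset.exists_max_image Finset.univ (fun i => V.valuation (y i)) ⟨i, by simp⟩
  have h4 : 1 < V.valuation (y k) :=
    (not_le.1 (mt (V.valuation_le_one_iff _).1 hi)).trans_le (hk i (by simp))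
  have h5 : y k ≠ 0 := fun h => by simp [h] at h4
  have h6 : V.valuation (y k)⁻¹ < 1 := by rw [map_inv₀]; exact inv_lt_one_of_one_lt₀ h4
  let p : V := ⟨(y k)⁻¹, (V.valuation_le_one_iff _).1 h6.le⟩
  let u : I → V := fun i => ⟨y i * (y k)⁻¹, (V.valuation_le_one_iff _).1 (by
    rw [map_mul, map_inv₀]; exact mul_inv_le_one_of_le₀ (hk i (by simp)) zero_le)⟩
  let L : Fin (t + 1) → V := fun j => ⟨l j, h1 j⟩
  let φ := (IsLocalRing.residue V).toIntAlgHom
  let ψ := V.subtype.toIntAlgHom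
  have hp : φ p = 0 := (IsLocalRing.residue_eq_zero_iff _).2 ((V.valuation_lt_one_iff _).2 h6)
  have h7 : AlgebraicIndependent ℤ (φ ∘ L) := algebraicIndependent_iff.2 fun a ha => by
    by_contra h
    have h8 : ((aeval L a : V) : Ω) = aeval l a := by
      rw [show ((aeval L a : V) : Ω) = (ψ.comp (aeval L)) a from rfl, comp_aeval]; rfl
    rw [show aeval (φ ∘ L) a = φ (aeval L a) by rw [← AlgHom.comp_apply, comp_aeval]; rfl] at ha
    exact (IsLocalRing.residue_ne_zero_iff_isUnit _).2 (IsUnit.of_mul_eq_one ⟨_, h3 a⟩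
      (Subtype.ext (by
        push_cast
        rw [h8]
        exact mul_inv_cancel₀ (mt (algebraicIndependent_iff.1 hl a) h)))) ha
  have : CharZero (IsLocalRing.ResidueField V) :=
    charZero_of_injective_algebraMap h7.algebraMap_injective
  obtain ⟨f, hf⟩ := ex_sub (y := φ ∘ u) h7 fun j => ⟨∑ i, Polynomial.monomial (ex i)
    ⟨φ (u i), subset_adjoin ⟨i, rfl⟩⟩, fun h => by
      have h8 := congrArg (·.coeff (ex k)) h
      have h9 : u k = 1 := Subtype.ext (mul_inv_cancel₀ h5)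
      classical
      simp [Polynomial.coeff_monomial, hex.eq_iff, h9, Subtype.ext_iff] at h8, by
      have h8 : ∑ i, u i * L j ^ ex i = ⟨_, h2 j⟩ * p := Subtype.ext (by
        simp only [u, L, p]
        push_cast
        rw [Finset.sum_mul]
        exact Finset.sum_congr rfl fun i _ => by ring)
      have h9 := congrArg φ h8
      rw [map_mul, hp, mul_zero, map_sum] at h9
      simpa [Polynomial.aeval_monomial] using h9⟩
  obtain ⟨g, hg⟩ := ex_sub (y := x) ((drop φ (p := p) (v := u ∘ f)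
    (fun h => inv_ne_zero h5 (congrArg Subtype.val h)) hp hf).map' (f := ψ) Subtype.val_injective)
    fun o => by
      cases o with
      | none => exact (hy k).inv
      | some j => exact (hy (f j)).mul (hy k).inv
  simpa using Fintype.card_le_of_injective g (hg.injective.of_comp)

omit [CharZero Ω] in
theorem int_rel {ι : Type*} (l ψ : ι → Ω) (hl : AlgebraicIndependent ℤ l) {w : Ω}
    (h : ∀ V : ValuationSubring Ω, (∀ j, l j ∈ V) → (∀ j, ψ j ∈ V) →
      (∀ a : MvPolynomial ι ℤ, (aeval l a)⁻¹ ∈ V) → w ∈ V) :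
    ∃ a : MvPolynomial ι ℤ, a ≠ 0 ∧ ∃ (F : Polynomial (MvPolynomial ι (MvPolynomial ι ℤ)))
      (p : Polynomial Ω), p.Monic ∧ p.eval w = 0 ∧
      F.map (eval₂Hom (aeval l).toRingHom ψ) = Polynomial.C (aeval l a) * p := by
  set s := range l ∪ range ψ ∪ range fun a : MvPolynomial ι ℤ => (aeval l a)⁻¹
  have h1 : w ∈ (integralClosure (Subring.closure s) Ω).toSubring := by
    rw [← iInf_valuationSubring_superset, Subring.mem_iInf]
    exact fun V => h V.1 (fun j => V.2 (Or.inl (Or.inl ⟨j, rfl⟩)))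
      (fun j => V.2 (Or.inl (Or.inr ⟨j, rfl⟩))) fun a => V.2 (Or.inr ⟨a, rfl⟩)
  obtain ⟨p, h2, h3⟩ := h1
  have h4 : ∀ b ∈ Subring.closure s, ∃ a : MvPolynomial ι ℤ, a ≠ 0 ∧
      ∃ d, eval₂Hom (aeval l).toRingHom ψ d = aeval l a * b := fun b hb => by
    induction hb using Subring.closure_induction with
    | mem b hb =>
      rcases hb with (⟨j, rfl⟩ | ⟨j, rfl⟩) | ⟨a, rfl⟩
      · exact ⟨1, one_ne_zero, (C (X j) : MvPolynomial ι (MvPolynomial ι ℤ)), by simp⟩
      · exact ⟨1, one_ne_zero, X j, by simp⟩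
      · by_cases ha : a = 0
        · exact ⟨1, one_ne_zero, 0, by simp [ha]⟩
        · exact ⟨a, ha, 1, by
            rw [map_one, mul_inv_cancel₀ (mt (algebraicIndependent_iff.1 hl a) ha)]⟩
    | zero => exact ⟨1, one_ne_zero, 0, by simp⟩
    | one => exact ⟨1, one_ne_zero, 1, by simp⟩
    | add _ _ _ _ h1 h2 =>
      obtain ⟨a, ha, d, hd⟩ := h1
      obtain ⟨a', ha', d', hd'⟩ := h2
      exact ⟨a * a', mul_ne_zero ha ha', C a' * d + C a * d', by
        rw [map_add, map_mul, map_mul, hd, hd']; simp; ring⟩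
    | neg _ _ h1 =>
      obtain ⟨a, ha, d, hd⟩ := h1
      exact ⟨a, ha, -d, by rw [map_neg, hd, mul_neg]⟩
    | mul _ _ _ _ h1 h2 =>
      obtain ⟨a, ha, d, hd⟩ := h1
      obtain ⟨a', ha', d', hd'⟩ := h2
      exact ⟨a * a', mul_ne_zero ha ha', d * d', by rw [map_mul, map_mul, hd, hd']; ring⟩
  have h5 : ∀ p : Polynomial (Subring.closure s), ∃ a : MvPolynomial ι ℤ, a ≠ 0 ∧
      ∃ F : Polynomial (MvPolynomial ι (MvPolynomial ι ℤ)),
        F.map (eval₂Hom (aeval l).toRingHom ψ) =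
          Polynomial.C (aeval l a) * p.map (algebraMap _ Ω) := fun p => by
    induction p using Polynomial.induction_on' with
    | add _ _ h1 h2 =>
      obtain ⟨a, ha, d, hd⟩ := h1
      obtain ⟨a', ha', d', hd'⟩ := h2
      exact ⟨a * a', mul_ne_zero ha ha', Polynomial.C (C a') * d + Polynomial.C (C a) * d', by
        rw [Polynomial.map_add, Polynomial.map_mul, Polynomial.map_mul, hd, hd']; simp; ring⟩
    | monomial n b =>
      obtain ⟨a, ha, d, hd⟩ := h4 b b.2
      exact ⟨a, ha, Polynomial.monomial n d, by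
        rw [Polynomial.map_monomial, hd, Polynomial.map_monomial, Polynomial.C_mul_monomial]; rfl⟩
  obtain ⟨a, ha, F, hF⟩ := h5 p
  exact ⟨a, ha, F, _, h2.map _, by rwa [Polynomial.eval_map], hF⟩

omit [CharZero Ω] in
theorem gauss {D : Type*} [CommRing D] [IsDomain D] [UniqueFactorizationMonoid D] (Φ : D →+* Ω)
    (hΦ : Function.Injective Φ) (z : Ω) {W F : Polynomial D} (hW : W ≠ 0)
    (h1 : W.eval₂ Φ z = 0) (h2 : F.eval₂ Φ z = 0) :
    ∃ P G, W = P * G ∧ P ∣ F ∧ P.eval₂ Φ z = 0 := by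
  obtain ⟨s, h3, h4⟩ := UniqueFactorizationMonoid.exists_prime_factors W hW
  have h5 := RingHom.ker_isPrime (Polynomial.eval₂RingHom Φ z)
  obtain ⟨P, h6, h7⟩ := (h5.multiset_prod_mem_iff_exists_mem s).1
    (Ideal.mem_of_dvd _ h4.symm.dvd h1)
  obtain ⟨G, hG⟩ := (Multiset.dvd_prod h6).trans h4.dvd
  have h8 : P.eval₂ Φ z = 0 := h7
  have h9 := (h3 P h6).irreducible
  have h10 := h9.isPrimitive fun h => by
    rw [Polynomial.eq_C_of_natDegree_eq_zero h, Polynomial.eval₂_C, map_eq_zero_iff _ hΦ] at h8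
    exact h9.ne_zero (by rw [Polynomial.eq_C_of_natDegree_eq_zero h, h8, map_zero])
  refine ⟨P, G, hG, h10.dvd_of_fraction_map_dvd_fraction_map (K := FractionRing D) ?_, h8⟩
  by_contra h
  obtain ⟨u, v, h11⟩ := (((h10.irreducible_iff_irreducible_map_fraction_map
    (K := FractionRing D)).1 h9).coprime_iff_not_dvd).2 h
  have h12 := congrArg (Polynomial.eval₂ (IsFractionRing.lift (K := FractionRing D) hΦ) z) h11
  have h13 : (IsFractionRing.lift (K := FractionRing D) hΦ).comp (algebraMap D _) = Φ :=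
    RingHom.ext fun d => IsFractionRing.lift_algebraMap hΦ d
  simp [Polynomial.eval₂_add, Polynomial.eval₂_mul, Polynomial.eval₂_map, h13, h8, h2] at h12

end Pool.Agent.MP_cbf1af_ag.Liou

end MrgPart1

-- marker of a merged file
example : 731051 + 55979 = 731051 + 55979 := rfl
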