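import Mathlib.Algebra.AffineMonoid.Basic
import Mathlib.Algebra.MvPolynomial.NoZeroDivisors
import Mathlib.Tactic.Polynomial.Basic
import Pool.Agent.MP_cbf1af_ag.Liou.Val
import Pool.Agent.MP_cbf1af_ag.cmp.Apx

/-! A small integer relation, and its factor with constant top coefficient. -/

namespace Pool.Agent.MP_cbf1af_ag.Liou

open Algebra Set MvPolynomial
open Pool.Agent.CMP (Mon)

variable {A B : Type} [CommRing A] [CommRing B] {m n t : ℕ}

theorem toSz (φ : B →+* A) {θ : Fin m → B} {δ H : ℕ} {q : B} (h : CMP.Sz θ δ H q) :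
    Sz (Mon (φ ∘ θ) δ) H (φ q) := by
  obtain ⟨l, h1, h2, rfl⟩ := h
  refine Sz.le ?_ h1
  clear h1
  induction l with
  | nil => simpa using .zero _
  | cons g l ih =>
    rw [List.sum_cons, map_add, add_comm]
    refine (ih fun y hy => h2 y (by simp [hy])).add ?_
    obtain ⟨w, h3, h4⟩ := h2 g (by simp)
    refine ⟨w, h3, h4.imp (fun h => ?_) fun h => ?_⟩ <;> simp [h, map_list_prod]

theorem Sz.mem {θ : Fin m → A} {δ H : ℕ} {q : A} (h : Sz (Mon θ δ) H q) (T : Subring A)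
    (hT : ∀ i, θ i ∈ T) : q ∈ T := by
  have h1 : ∀ g ∈ Mon θ δ, g ∈ T := by
    rintro g ⟨l, -, rfl | rfl⟩
    · exact list_prod_mem (by simpa using fun i _ => hT i)
    · exact neg_mem (list_prod_mem (by simpa using fun i _ => hT i))
  induction h with
  | zero => exact zero_mem _
  | add _ h ih => exact add_mem ih (h1 _ h)
  | sub _ h ih => exact sub_mem ih (h1 _ h)

/-- exponents of the linear form -/
def ex (m n : ℕ) : Fin m ⊕ Fin n → ℕ := Sum.elim (↑) fun i => m + i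

/-- the linear form -/
def ps (θ : Fin m → A) (q : Fin n → A) (l z : A) : A :=
  ∑ i, l ^ ex m n i * Sum.elim θ (fun i => z * q i) i

/-- evaluation of polynomials in `l`, `T` -/
noncomputable abbrev Ev {ι : Type} (l T : ι → A) : MvPolynomial ι (MvPolynomial ι ℤ) →+* A :=
  eval₂Hom (eval₂Hom (Int.castRingHom A) l) T

/-- index set of the monomials -/
abbrev Ix (t N E : ℕ) := Fin (N + 1) × (Fin (t + 1) → Fin (N + 1)) × (Fin (t + 1) → Fin (E + 1))

/-- the polynomial with coefficients `a` -/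
noncomputable def Wp {N E : ℕ} (a : Ix t N E → ℤ) :
    Polynomial (MvPolynomial (Fin (t + 1)) (MvPolynomial (Fin (t + 1)) ℤ)) :=
  ∑ μ, Polynomial.monomial μ.1 (monomial (Finsupp.equivFunOnFinite.symm fun j => μ.2.1 j)
    (monomial (Finsupp.equivFunOnFinite.symm fun j => μ.2.2 j) (a μ)))

theorem Wp_eval {N E : ℕ} (a : Ix t N E → ℤ) (l T : Fin (t + 1) → A) (z : A) :
    (Wp a).eval₂ (Ev l T) z =
      ∑ μ, a μ • (z ^ (μ.1 : ℕ) * ∏ j, l j ^ (μ.2.2 j : ℕ) * T j ^ (μ.2.1 j : ℕ)) := by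
  rw [Wp, Polynomial.eval₂_finsetSum]
  refine Finset.sum_congr rfl fun μ _ => ?_
  rw [Polynomial.eval₂_monomial, eval₂Hom_monomial, eval₂Hom_monomial,
    Finsupp.prod_fintype _ _ (by simp), Finsupp.prod_fintype _ _ (by simp),
    Finset.prod_mul_distrib]
  simp
  ring

theorem Wp_ne {N E : ℕ} {a : Ix t N E → ℤ} (ha : a ≠ 0) : Wp a ≠ 0 := fun h => ha <| by
  funext μ
  have h1 := congrArg (fun W => ((W.coeff μ.1).coeff (Finsupp.equivFunOnFinite.symm
    fun j => (μ.2.1 j : ℕ))).coeff (Finsupp.equivFunOnFinite.symm fun j => (μ.2.2 j : ℕ))) h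
  simp only [Wp, Polynomial.finsetSum_coeff, coeff_sum] at h1
  rw [Finset.sum_eq_single μ] at h1
  · simpa using h1
  · intro ν _ hν
    simp only [Polynomial.coeff_monomial]
    split_ifs with h2
    · rw [coeff_monomial]
      split_ifs with h3
      · rw [coeff_monomial, if_neg fun h4 => hν (Prod.ext (Fin.ext h2) (Prod.ext
          (funext fun j => Fin.ext (congrFun (Finsupp.equivFunOnFinite.symm.injective h3) j))
          (funext fun j => Fin.ext (congrFun (Finsupp.equivFunOnFinite.symm.injective h4) j))))]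
      · simp
    · simp
  · simp

theorem Wp_deg {N E : ℕ} (a : Ix t N E → ℤ) : (Wp a).natDegree ≤ N :=
  Polynomial.natDegree_sum_le_of_forall_le _ _ fun μ _ =>
    (Polynomial.natDegree_monomial_le _).trans (Nat.le_of_lt_succ μ.1.2)

theorem hom_ev (φ : A →+* B) (θ : Fin m → A) (q : Fin n → A) (l : Fin (t + 1) → A) (z : A)
    (P : Polynomial (MvPolynomial (Fin (t + 1)) (MvPolynomial (Fin (t + 1)) ℤ))) :
    φ (P.eval₂ (Ev l fun j => ps θ q (l j) z) z) =
      P.eval₂ (Ev (φ ∘ l) fun j => ps (φ ∘ θ) (φ ∘ q) (φ (l j)) (φ z)) (φ z) := by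
  rw [Polynomial.hom_eval₂]
  congr 1
  ext <;> simp [ps]

theorem rel [IsDomain A] (θ : Fin m → A) (x : Fin t → A)
    (h : ∀ i, IsAlgebraic (adjoin ℤ (range x)) (θ i)) :
    ∃ c c' : ℕ, 1 ≤ c' ∧ ∀ (n δ H : ℕ) (q : Fin n → A) (l : Fin (t + 1) → A) (z : A), 1 ≤ δ →
      1 ≤ H → (∀ i, Sz (Mon θ δ) H (q i)) →
      ∃ a : Ix t (c' * δ ^ t) ((m + n) * (c' * δ ^ t)) → ℤ, a ≠ 0 ∧
        (Wp a).eval₂ (Ev l fun j => ps θ q (l j) z) z = 0 ∧ ∀ μ, ‖a μ‖ ≤
          Fintype.card (Ix t (c' * δ ^ t) ((m + n) * (c' * δ ^ t))) *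
            ((((m + n + 1) * (H * (c + 1) ^ δ)) ^ (c' * δ ^ t)) ^ (t + 1) : ℕ) := by
  classical
  obtain ⟨s, b, c, h1, hb, h2, h3⟩ := repr θ x h
  have : Nonempty s := ⟨⟨1, h1⟩⟩
  refine ⟨c, 2 * (((t + 1) * c + 1) ^ t * ((t + 2) * 2 ^ (t + 1)) * Fintype.card s),
    Nat.succ_le_of_lt (by positivity), fun n δ H q l z hδ hH hq => ?_⟩
  generalize hN : 2 * (((t + 1) * c + 1) ^ t * ((t + 2) * 2 ^ (t + 1)) * Fintype.card s) *
    δ ^ t = N
  set v := Sum.elim x fun o : Option (Fin (t + 1)) => o.elim z l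
  set w : Fin t ⊕ Option (Fin (t + 1)) → ℕ := Sum.elim (fun _ => c) 0
  have h4 : Act v ((↑) : s → A) w (c + 1) b := (h2.lift _).le le_rfl (by omega)
  have h5 : ∀ g ∈ Mon θ δ, Act v ((↑) : s → A) (δ • w) ((c + 1) ^ δ) (b ^ δ * g) := by
    have h6 : ∀ L : List (Fin m), Act v ((↑) : s → A) (L.length • w) ((c + 1) ^ L.length)
        (b ^ L.length * (L.map θ).prod) := fun L => by
      induction L with
      | nil => simpa using Act.one
      | cons i L ih =>
        have := ih.mul (((h3 i).lift _).le le_rfl (Nat.le_succ c))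
        rwa [← succ_nsmul, ← pow_succ, mul_mul_mul_comm, ← pow_succ, mul_comm _ (θ i)] at this
    have h7 : ∀ L : List (Fin m), L.length ≤ δ → Act v ((↑) : s → A) (δ • w) ((c + 1) ^ δ)
        (b ^ δ * (L.map θ).prod) := fun L hL => by
      have := (h4.pow (δ - L.length)).mul (h6 L)
      rwa [← add_nsmul, ← pow_add, ← mul_assoc, ← pow_add, Nat.sub_add_cancel hL] at this
    rintro g ⟨L, hL, rfl | rfl⟩
    · exact h7 L hL
    · exact fun k => by simpa using (h7 L hL k).neg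
  let u : Fin (t + 1) → Fin t ⊕ Option (Fin (t + 1)) → ℕ := fun j =>
    (m + n) • Pi.single (.inr (some j)) 1 + (Pi.single (.inr none) 1 + δ • w)
  have h6 : ∀ j, Act v ((↑) : s → A) (u j) ((m + n + 1) * (H * (c + 1) ^ δ))
      (b ^ δ * ps θ q (l j) z) := fun j => by
    rw [ps, Finset.mul_sum]
    refine (Act.sum (c := H * (c + 1) ^ δ) _ fun i _ => ?_).le le_rfl
      (Nat.mul_le_mul_right _ (by simp))
    have h7 : Act v ((↑) : s → A) (Pi.single (.inr none) 1 + δ • w) (H * (c + 1) ^ δ)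
        (b ^ δ * Sum.elim θ (fun i => z * q i) i) := by
      rcases i with i | i
      · exact (h5 _ ⟨[i], hδ, Or.inl (by simp)⟩).le le_add_self (Nat.le_mul_of_pos_left _ hH)
      · have := (Act.var (.inr none)).mul (Act.of_sz _ h5 (hq i))
        rwa [one_mul, mul_left_comm] at this
    rw [mul_left_comm]
    refine Act.le (((Act.var (.inr (some j))).pow (ex m n i)).mul h7) (add_le_add_left
      (nsmul_le_nsmul_left zero_le ?_) _) (by rw [one_pow, one_mul])
    rcases i with i | i <;> simp only [ex, Sum.elim_inl, Sum.elim_inr] <;> omega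
  have h7 : ∀ j, Act v ((↑) : s → A) (u j) ((m + n + 1) * (H * (c + 1) ^ δ)) (b ^ δ) := fun j =>
    (h4.pow δ).le (le_add_left le_add_self)
      ((Nat.le_mul_of_pos_left _ hH).trans (Nat.le_mul_of_pos_left _ (by omega)))
  obtain ⟨a, h8, h9, h10⟩ := siegel (fun p : (∀ i, Fin (Sum.elim (fun _ => (t + 1) * (N * (δ * c)))
      (fun o : Option (Fin (t + 1)) => o.elim (N + (t + 1) * N) fun _ => 2 * ((m + n) * N)) i
        + 1)) × s => (∏ i, v i ^ (p.1 i : ℕ)) * (p.2 : A))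
    (fun μ : Ix t N ((m + n) * N) => z ^ (μ.1 : ℕ) * ∏ j, l j ^ (μ.2.2 j : ℕ) *
      ((b ^ δ * ps θ q (l j) z) ^ (μ.2.1 j : ℕ) * (b ^ δ) ^ (N - μ.2.1 j)))
    (H := (((m + n + 1) * (H * (c + 1) ^ δ)) ^ N) ^ (t + 1))
    (Nat.succ_le_of_lt (by positivity)) (fun μ => by
      rw [← Gn_eq]
      have h8 := ((Act.var (.inr none)).pow μ.1).mul (Act.prod Finset.univ fun j _ =>
        ((Act.var (.inr (some j))).pow (μ.2.2 j)).mul
          (((h6 j).pow (μ.2.1 j)).mul ((h7 j).pow (N - μ.2.1 j))))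
      have h9 : ∀ j, (μ.2.1 j : ℕ) + (N - μ.2.1 j) = N := fun j =>
        Nat.add_sub_cancel' (Nat.le_of_lt_succ (μ.2.1 j).2)
      simp only [← add_nsmul, ← pow_add, h9] at h8
      refine (mul_one _).subst (motive := Sz _ _) ((h8.le ?_ (by simp)) ⟨1, h1⟩)
      rintro (i | _ | j)
      · simp [u, w, Finset.sum_apply]
      · simpa [u, w, Finset.sum_apply] using Nat.le_of_lt_succ μ.1.2
      · have := (μ.2.2 j).2
        simp [u, w, Finset.sum_apply, Pi.single_apply, Finset.sum_add_distrib]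
        nlinarith) (by
      simp only [Fintype.card_prod, Fintype.card_pi, Fintype.card_fin, Fintype.prod_sum_type,
        Fintype.prod_option, Sum.elim_inl, Sum.elim_inr, Option.elim_none, Option.elim_some, Finset.prod_const,
        Finset.card_univ]
      calc _ ≤ 2 * (((N + 1) * (((t + 1) * c + 1) * δ)) ^ t * (((t + 2) * (N + 1)) *
            (2 * ((m + n) * N + 1)) ^ (t + 1)) * Fintype.card s) := by
            gcongr
            · nlinarith [Nat.zero_le (N * δ), Nat.zero_le ((t + 1) * c * δ)]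
            · nlinarith
            · omega
        _ = N * ((N + 1) ^ (t + 1) * ((m + n) * N + 1) ^ (t + 1)) := by
            rw [mul_pow, mul_pow, mul_pow, pow_succ (N + 1) t]
            nth_rewrite 4 [← hN]
            generalize N + 1 = a, (t + 1) * c + 1 = b, (m + n) * N + 1 = d
            ring
        _ ≤ _ := by gcongr; omega)
  refine ⟨a, h8, mul_left_cancel₀ (pow_ne_zero (t + 1) (pow_ne_zero N (pow_ne_zero δ hb))) ?_, h10⟩
  rw [Wp_eval, mul_zero, ← h9, Finset.mul_sum]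
  refine Finset.sum_congr rfl fun μ _ => ?_
  rw [mul_smul_comm, mul_left_comm]
  congr 2
  rw [← Fin.prod_const, ← Finset.prod_mul_distrib]
  refine Finset.prod_congr rfl fun j _ => ?_
  nth_rewrite 1 [← Nat.add_sub_cancel' (Nat.le_of_lt_succ (μ.2.1 j).2)]
  ring

theorem factor {Ω : Type} [Field Ω] [CharZero Ω] (θ : Fin m → Ω) (f : Fin t → Fin m)
    (q : Fin n → Ω) (l : Fin (t + 1) → Ω) (z : Ω) {δ H : ℕ} (hq : ∀ i, Sz (Mon θ δ) H (q i))
    (h1 : AlgebraicIndependent ℤ (Sum.elim (fun o : Option _ => o.elim z l) (θ ∘ f)))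
    (h2 : ∀ i, IsAlgebraic (adjoin ℤ (range (θ ∘ f))) (θ i))
    (h3 : ∀ V : ValuationSubring Ω, (∀ k : ℤ, (k : Ω)⁻¹ ∈ V) → (∀ i, θ i ∈ V) →
      (∀ i, z * q i ∈ V) → z ∈ V)
    {W : Polynomial (MvPolynomial (Fin (t + 1)) (MvPolynomial (Fin (t + 1)) ℤ))} (hW : W ≠ 0)
    (h0 : W.eval₂ (Ev l fun j => ps θ q (l j) z) z = 0) :
    ∃ P G a, W = P * G ∧ P.leadingCoeff = C a ∧
      P.eval₂ (Ev l fun j => ps θ q (l j) z) z = 0 := by
  have hl : AlgebraicIndependent ℤ l :=
    h1.comp (fun j => .inl (some j)) fun _ _ h => by simpa using h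
  set ψ := fun j => ps θ q (l j) z
  obtain ⟨x, hx, hz⟩ : ∃ x : Option (Fin t) → Ω, range (θ ∘ f) ⊆ range x ∧ z ∈ range x :=
    ⟨fun o => o.elim z (θ ∘ f), range_subset_iff.2 fun j => ⟨some j, rfl⟩, none, rfl⟩
  have h4 : ∀ i, IsAlgebraic (adjoin ℤ (range x)) (θ i) :=
    fun i => (h2 i).tower_top_of_subalgebra_le (adjoin_mono hx)
  have h5 : ∀ V : ValuationSubring Ω, (∀ j, l j ∈ V) → (∀ j, ψ j ∈ V) →
      (∀ a : MvPolynomial _ ℤ, (aeval l a)⁻¹ ∈ V) → z ∈ V ∧ ∀ i, θ i ∈ V := fun V a1 a2 a3 => by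
    have := val_mem (Sum.elim θ fun i => z * q i) (ex := ex m n) (by
      rintro (i | i) (j | j) h <;> simp only [ex, Sum.elim_inl, Sum.elim_inr] at h
      · rw [Fin.ext h]
      · omega
      · omega
      · rw [Fin.ext (Nat.add_left_cancel h)]) l hl x (by
      rintro (i | i)
      · exact h4 i
      · exact IsAlgebraic.mul (isAlgebraic_algebraMap (⟨z, subset_adjoin hz⟩ : adjoin ℤ (range x)))
          ((hq i).mem (Subalgebra.algebraicClosure (adjoin ℤ (range x)) Ω).toSubring h4))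
      V a1 a2 a3
    exact ⟨h3 V (fun k => by simpa using a3 (C k)) (fun i => this (.inl i)) fun i => this (.inr i),
      fun i => this (.inl i)⟩
  have h6 : eval₂Hom (aeval l : MvPolynomial _ ℤ →ₐ[ℤ] Ω).toRingHom ψ = Ev l ψ := by ext <;> simp
  have h7 : (Ev l ψ).comp (sumRingEquiv ℤ _ _).toRingHom =
      (aeval (Sum.elim ψ l) : MvPolynomial _ ℤ →ₐ[ℤ] Ω).toRingHom := by ext (_ | _) <;> simp
  have h8 : ∀ d, Ev l ψ d ∈ adjoin ℤ (range (Sum.elim ψ l)) := fun d => by
    obtain ⟨d, rfl⟩ := (sumRingEquiv ℤ _ _).surjective d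
    rw [adjoin_range_eq_range_aeval]
    exact ⟨d, (DFunLike.congr_fun h7 d).symm⟩
  have h9 : ∀ w : Ω, (∀ V : ValuationSubring Ω, (∀ j, l j ∈ V) → (∀ j, ψ j ∈ V) →
      (∀ a : MvPolynomial _ ℤ, (aeval l a)⁻¹ ∈ V) → w ∈ V) →
      IsAlgebraic (adjoin ℤ (range (Sum.elim ψ l))) w := fun w hw => by
    obtain ⟨a, ha, F, p, b1, b2, b3⟩ := int_rel l ψ hl hw
    rw [h6] at b3
    have b4 : (F.map ((Ev l ψ).codRestrict _ h8)).map (algebraMap _ Ω) = F.map (Ev l ψ) := by
      rw [Polynomial.map_map]; rfl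
    refine ⟨F.map ((Ev l ψ).codRestrict _ h8), fun h => ?_, ?_⟩
    · rw [h, Polynomial.map_zero, b3] at b4
      exact mul_ne_zero (Polynomial.C_ne_zero.2 (mt (algebraicIndependent_iff.1 hl a) ha))
        b1.ne_zero b4.symm
    · rw [Polynomial.aeval_def, ← Polynomial.eval_map, b4, b3, Polynomial.eval_mul, b2, mul_zero]
  obtain ⟨g, hg⟩ := ex_sub (y := Sum.elim ψ l) h1 (by
    rintro ((_ | j) | i)
    · exact h9 _ fun V a b c => (h5 V a b c).1
    · exact h9 _ fun V a _ _ => a j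
    · exact h9 _ fun V a b c => (h5 V a b c).2 _)
  have h10 : Function.Bijective g := (Fintype.bijective_iff_injective_and_card g).2
    ⟨hg.injective.of_comp, by simp; ring⟩
  have h11 : Function.Injective (Ev l ψ) := by
    have := (algebraicIndependent_equiv (Equiv.ofBijective g h10)).1 hg
    refine Function.Injective.of_comp_right (g := sumRingEquiv ℤ _ _) ?_
      (sumRingEquiv ℤ _ _).surjective
    rw [show Ev l ψ ∘ sumRingEquiv ℤ _ _ = _ from congrArg DFunLike.coe h7]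
    exact this
  obtain ⟨a, ha, F, p, b1, b2, b3⟩ := int_rel l ψ hl fun V a b c => (h5 V a b c).1
  rw [h6] at b3
  obtain ⟨P, G, c1, c2, c3⟩ := gauss _ h11 z (F := F) hW h0 (by
    rw [← Polynomial.eval_map, b3, Polynomial.eval_mul, b2, mul_zero])
  have c4 : F.leadingCoeff = C a := h11 (by
    rw [← Polynomial.leadingCoeff_map_of_injective h11, b3, Polynomial.leadingCoeff_mul,
      b1.leadingCoeff, ← h6, Polynomial.leadingCoeff_C]
    simp)
  obtain ⟨a', -, c5⟩ := (dvd_C_iff_exists ha).1 (c4 ▸ Polynomial.leadingCoeff_dvd_leadingCoeff c2)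
  exact ⟨P, G, a', c1, c5, c3⟩

end Pool.Agent.MP_cbf1af_ag.Liou
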